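import Pool.Agent.H28.SQ.Fin

/-!
# The structure theorem for every invariant random measure with a quasi-generic mean
(MP_c59857_nt)
-/

set_option autoImplicit false

open MeasureTheory ProbabilityTheory Filter Topology Finset

namespace Pool.Agent.H28.SQ

open Pool.Agent.H89.MT (I1 X pt z1 IsMult)
open Pool.Agent.H36.RP (S past remote remote_le past_le comp ae_comp meas_y abs_y Trit)
open Pool.Agent.H24.WT (QGW qgw_mp)
open Pool.Agent.H92.WN (T_GLR)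
open Pool.Agent.H93.ES (T_QSU)
open Pool.Agent.H28.MG (P Dec V V_meas V_mem Tri qg_of set_all aINV spec_all finU_of)
open Pool.Agent.H28.FS (struct_of)

/-- parts (i) and (ii) for almost all values of an invariant random measure -/
theorem part_B (hG : T_GLR) (hQ : T_QSU) {u : ℕ → I1} (hT : Tri u)
    (hm : ∀ m n : ℕ, m.Coprime n → (u (m * n) : ℝ) = u m * u n)
    {Ω : Type*} [MeasurableSpace Ω] (PP : Measure Ω) [IsProbabilityMeasure PP]
    (K : Kernel Ω X) [IsMarkovKernel K] (hκ : QGW u (K ∘ₘ PP))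
    (hKS : ∀ᵐ ω ∂PP, MeasurePreserving S (K ω) (K ω)) :
    ∀ᵐ ω ∂PP, Struct (K ω) (V (K ∘ₘ PP)) (Pool.Agent.H24.WN.W (K ∘ₘ PP)) := by
  obtain ⟨hS, hTr⟩ := Pool.Agent.H2.RP.pf_MP u hT (K ∘ₘ PP) (qg_of hκ)
  have hset := set_all hT hm hκ
  have hinv := aINV (K ∘ₘ PP) hS
  obtain ⟨h1, h2⟩ := Pool.Agent.H56.FS.K_set PP K hS hKS hTr hset hinv
  have h3 := Pool.Agent.H56.FS.comp_same PP K hS hKS
  have h4 := Pool.Agent.H56.FS.ae_K PP K (spec_all hG hQ hm hκ)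
  have h5 := Pool.Agent.H56.FS.ae_K PP K hTr
  have h6 := h2 0 (fun a : I1 => (a : ℝ)) measurable_subtype_coe fun a => abs_le.2 a.2
  have h7 : ∀ᵐ ω ∂PP, ∀ n : ℤ,
      (K ω)[fun x : X => (x n : ℝ) ^ 2 | remote] =ᵐ[K ω] fun x => (x n : ℝ) ^ 2 := by
    rw [ae_all_iff]
    intro n
    have g1 := h2 n (fun a : I1 => (a : ℝ) ^ 2) (measurable_subtype_coe.pow_const 2) (fun a => by
      rw [abs_pow]
      exact pow_le_one₀ (abs_nonneg _) (abs_le.2 a.2))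
    have g2 := Pool.Agent.H56.FS.ae_K PP K (sq_all hT hm hκ n)
    filter_upwards [g1, g2] with ω e1 e2
    exact e1.symm.trans e2
  filter_upwards [hKS, h5, h1, h3, h6, h4, h7] with ω g1 g2 g3 g4 g5 g6 g7
  exact struct_two (struct_of (K ∘ₘ PP) (K ω) g1 g2 g3 g4 g5.symm g6) g7

/-- **The structure theorem**, for logarithmic averages (A) and for the values of every invariant
random measure whose mean is a logarithmic limit (B) -/
theorem main_any (hG : T_GLR) (hQ : T_QSU) (q : ℕ) [NeZero q] (E : Set ℕ)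
    (hE : Summable fun p : {p : ℕ // p.Prime ∧ p ∈ E} => (1 : ℝ) / (p : ℕ)) :
    ∃ c : ℝ, 0 < c ∧ ∀ u : ℕ → I1,
    Tri u → (∀ m n : ℕ, m.Coprime n → (u (m * n) : ℝ) = u m * u n) →
    (∀ (κ : Measure X) [IsProbabilityMeasure κ], QGW u κ →
      ∃ v w : X → ℝ, Measurable v ∧ Measurable w ∧ (∀ x, 0 ≤ v x ∧ v x ≤ w x ∧ w x ≤ 1) ∧
        Struct κ v w ∧
        ((∃ χ : DirichletCharacter ℂ q, ∀ p : ℕ, p.Prime → p ∉ E → ((u p : ℝ) : ℂ) = -χ p) →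
          c ≤ ∫ x, w x ∂κ)) ∧
    (∀ (Ω : Type) [MeasurableSpace Ω] (PP : Measure Ω) [IsProbabilityMeasure PP]
      (K : Kernel Ω X) [IsMarkovKernel K], QGW u (K ∘ₘ PP) →
      (∀ᵐ ω ∂PP, MeasurePreserving S (K ω) (K ω)) →
      ∃ v w : X → ℝ, Measurable v ∧ Measurable w ∧ (∀ x, 0 ≤ v x ∧ v x ≤ w x ∧ w x ≤ 1) ∧
        (∀ᵐ ω ∂PP, Struct (K ω) v w) ∧
        ((∃ χ : DirichletCharacter ℂ q, ∀ p : ℕ, p.Prime → p ∉ E → ((u p : ℝ) : ℂ) = -χ p) →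
          c ≤ ∫ ω, ∫ x, w x ∂K ω ∂PP)) := by
  obtain ⟨c, hc, hfar⟩ := Pool.Agent.H56.FS.far_cls q E hE
  have hthree : ∀ u : ℕ → I1, (∀ m n : ℕ, m.Coprime n → (u (m * n) : ℝ) = u m * u n) →
      ∀ (κ : Measure X) [IsProbabilityMeasure κ], QGW u κ →
      (∃ χ : DirichletCharacter ℂ q, ∀ p : ℕ, p.Prime → p ∉ E → ((u p : ℝ) : ℂ) = -χ p) →
        c ≤ ∫ x, Pool.Agent.H24.WN.W κ x ∂κ := by
    intro u hm κ _ hκ hχ
    obtain ⟨G, hGm, hG1, hGc, hGF⟩ := hfar u hm hχ κ hκ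
    exact (Pool.Agent.H24.WN.white_of hκ (finU_of hG hQ hm
      (Pool.Agent.H56.FS.summ_cls hE u hχ))).2 c G hGm hG1 hGc hGF
  refine ⟨c, hc, fun u hT hm => ⟨fun κ _ hκ => ?_, fun Ω _ PP _ K _ hκ hKS => ?_⟩⟩
  · obtain ⟨hS, hTr⟩ := Pool.Agent.H2.RP.pf_MP u hT κ (qg_of hκ)
    exact ⟨V κ, Pool.Agent.H24.WN.W κ, V_meas κ, Pool.Agent.H24.WN.W_meas κ, V_mem κ,
      struct_two (struct_of κ κ hS hTr (set_all hT hm hκ) (Eventually.of_forall fun x => rfl)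
        (EventuallyEq.refl _ _) (spec_all hG hQ hm hκ)) (sq_all hT hm hκ), hthree u hm κ hκ⟩
  · refine ⟨V (K ∘ₘ PP), Pool.Agent.H24.WN.W (K ∘ₘ PP), V_meas _,
      Pool.Agent.H24.WN.W_meas _, V_mem _, part_B hG hQ hT hm PP K hκ hKS, fun hχ => ?_⟩
    have h8 := hthree u hm (K ∘ₘ PP) hκ hχ
    rwa [Pool.Agent.H56.FS.int_comp PP K] at h8
    exact Integrable.of_bound (Pool.Agent.H24.WN.W_meas _).aestronglyMeasurable 1
      (Eventually.of_forall fun x => by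
        rw [Real.norm_eq_abs, abs_of_nonneg (Pool.Agent.H24.WN.W_mem _ x).1]
        exact (Pool.Agent.H24.WN.W_mem _ x).2)

end Pool.Agent.H28.SQ
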