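import Pool.Agent.H28.SQ.Sq
import Pool.Agent.H56.FS.Far

/-!
# The structure theorem, with the squares in the remote past (MP_c59857_nt)
-/

set_option autoImplicit false

open MeasureTheory ProbabilityTheory Filter Topology Finset

namespace Pool.Agent.H28.SQ

open Pool.Agent.H89.MT (I1 X pt z1 IsMult)
open Pool.Agent.H36.RP (S past remote remote_le past_le comp ae_comp meas_y abs_y Trit)
open Pool.Agent.H24.WT (QGW qgw_mp)
open Pool.Agent.H92.WN (T_GLR)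
open Pool.Agent.H93.ES (T_QSU)
open Pool.Agent.H28.MG (P Dec V V_meas V_mem Tri qg_of set_all aINV spec_all finU_of)
open Pool.Agent.H28.FS (struct_of)

/-- The sigma algebra generated by the functions `P κ k` and `(x k) ^ 2`, `k ≤ m`. -/
noncomputable def bias (κ : Measure X) (m : ℤ) : MeasurableSpace X :=
  ⨆ k : ℤ, ⨆ _ : k ≤ m, (MeasurableSpace.comap (P κ k) inferInstance ⊔
    MeasurableSpace.comap (fun x : X => (x k : ℝ) ^ 2) inferInstance)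

/-- parts (i) and (ii) of the structure theorem for the measure `ν`, with the densities `v`, `w` -/
def Struct (ν : Measure X) [IsProbabilityMeasure ν] (v w : X → ℝ) : Prop :=
  iCondIndepFun remote remote_le (fun (n : ℤ) (x : X) => x n) ν ∧
  (∀ n : ℤ, ν[fun x : X => (x n : ℝ) ^ 2 | remote] =ᵐ[ν] fun x => (x n : ℝ) ^ 2) ∧
  (∀ A : Set X, MeasurableSet[remote] A → ∀ m : ℤ,
    ∃ B : Set X, MeasurableSet[bias ν m] B ∧ A =ᵐ[ν] B) ∧
  (∀ A : Set X, MeasurableSet A → S ⁻¹' A = A →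
    ∃ B : Set X, MeasurableSet[remote] B ∧ A =ᵐ[ν] B) ∧
  ((∀ (s : Finset ℤ) (n : ℤ) (e : ℤ → ℕ), n ∉ s →
    ∫ x, (x n : ℝ) * ∏ k ∈ s, (x k : ℝ) ^ e k ∂ν = 0) ↔ P ν 0 =ᵐ[ν] 0) ∧
  ∀ᵐ x ∂ν, Dec ν (comp ν x) (v x) (w x)

/-- the two sigma algebras of the biases agree up to null sets -/
theorem bias_ae (ν : Measure X)
    (hsq : ∀ n : ℤ, ν[fun x : X => (x n : ℝ) ^ 2 | remote] =ᵐ[ν] fun x => (x n : ℝ) ^ 2)
    (m : ℤ) (A : Set X) (hA : MeasurableSet[Pool.Agent.H95.RP.bias ν m] A) :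
    ∃ B : Set X, MeasurableSet[bias ν m] B ∧ A =ᵐ[ν] B := by
  have hle : Pool.Agent.H95.RP.bias ν m ≤ eventuallyMeasurableSpace (bias ν m) (ae ν) := by
    refine iSup_le fun k => iSup_le fun hk => sup_le ?_ ?_
    · rintro _ ⟨U, hU, rfl⟩
      refine ⟨(P ν k) ⁻¹' U, ?_, EventuallyEq.refl _ _⟩
      have h1 : MeasurableSpace.comap (P ν k) inferInstance ≤ bias ν m :=
        le_sup_left.trans (le_iSup_of_le k (le_iSup_of_le hk le_rfl))
      exact h1 _ ⟨U, hU, rfl⟩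
    · rintro _ ⟨U, hU, rfl⟩
      refine ⟨(fun x : X => (x k : ℝ) ^ 2) ⁻¹' U, ?_, ?_⟩
      · have h1 : MeasurableSpace.comap (fun x : X => (x k : ℝ) ^ 2) inferInstance ≤ bias ν m :=
          le_sup_right.trans (le_iSup_of_le k (le_iSup_of_le hk le_rfl))
        exact h1 _ ⟨U, hU, rfl⟩
      · rw [Filter.eventuallyEq_set]
        filter_upwards [hsq k] with x hx
        rw [Set.mem_preimage, Set.mem_preimage, hx]
  obtain ⟨B, hB, hAB⟩ := hle A hA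
  exact ⟨B, hB, hAB⟩

theorem struct_two {ν : Measure X} [IsProbabilityMeasure ν] {v w : X → ℝ}
    (h : Pool.Agent.H28.FS.Struct ν v w)
    (hsq : ∀ n : ℤ, ν[fun x : X => (x n : ℝ) ^ 2 | remote] =ᵐ[ν] fun x => (x n : ℝ) ^ 2) :
    Struct ν v w := by
  obtain ⟨h1, h2, h3, h4, h5⟩ := h
  refine ⟨h1, hsq, fun A hA m => ?_, h3, h4, h5⟩
  obtain ⟨B, hB, hAB⟩ := h2 A hA m
  obtain ⟨C, hC, hBC⟩ := bias_ae ν hsq m B hB
  exact ⟨C, hC, hAB.trans hBC⟩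

/-- **The structure theorem**, for logarithmic averages (A) and for ordinary averages at a random
scale (B) -/
theorem main (hG : T_GLR) (hQ : T_QSU) (q : ℕ) [NeZero q] (E : Set ℕ)
    (hE : Summable fun p : {p : ℕ // p.Prime ∧ p ∈ E} => (1 : ℝ) / (p : ℕ)) :
    ∃ c : ℝ, 0 < c ∧ ∀ u : ℕ → I1,
    Tri u → (∀ m n : ℕ, m.Coprime n → (u (m * n) : ℝ) = u m * u n) →
    (∀ (κ : Measure X) [IsProbabilityMeasure κ], QGW u κ →
      ∃ v w : X → ℝ, Measurable v ∧ Measurable w ∧ (∀ x, 0 ≤ v x ∧ v x ≤ w x ∧ w x ≤ 1) ∧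
        Struct κ v w ∧
        ((∃ χ : DirichletCharacter ℂ q, ∀ p : ℕ, p.Prime → p ∉ E → ((u p : ℝ) : ℂ) = -χ p) →
          c ≤ ∫ x, w x ∂κ)) ∧
    (∀ (Ω : Type) [MeasurableSpace Ω] (PP : Measure Ω) [IsProbabilityMeasure PP]
      (K : Kernel Ω X) [IsMarkovKernel K], Pool.Agent.H56.FS.RS u PP K →
      ∃ v w : X → ℝ, Measurable v ∧ Measurable w ∧ (∀ x, 0 ≤ v x ∧ v x ≤ w x ∧ w x ≤ 1) ∧
        (∀ᵐ ω ∂PP, Struct (K ω) v w) ∧
        ((∃ χ : DirichletCharacter ℂ q, ∀ p : ℕ, p.Prime → p ∉ E → ((u p : ℝ) : ℂ) = -χ p) →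
          c ≤ ∫ ω, ∫ x, w x ∂K ω ∂PP)) := by
  obtain ⟨c, hc, hfar⟩ := Pool.Agent.H56.FS.far_cls q E hE
  have hthree : ∀ u : ℕ → I1, (∀ m n : ℕ, m.Coprime n → (u (m * n) : ℝ) = u m * u n) →
      ∀ (κ : Measure X) [IsProbabilityMeasure κ], QGW u κ →
      (∃ χ : DirichletCharacter ℂ q, ∀ p : ℕ, p.Prime → p ∉ E → ((u p : ℝ) : ℂ) = -χ p) →
        c ≤ ∫ x, Pool.Agent.H24.WN.W κ x ∂κ := by
    intro u hm κ _ hκ hχ
    obtain ⟨G, hGm, hG1, hGc, hGF⟩ := hfar u hm hχ κ hκ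
    exact (Pool.Agent.H24.WN.white_of hκ (finU_of hG hQ hm
      (Pool.Agent.H56.FS.summ_cls hE u hχ))).2 c G hGm hG1 hGc hGF
  refine ⟨c, hc, fun u hT hm => ⟨fun κ _ hκ => ?_, fun Ω _ PP _ K _ hK => ?_⟩⟩
  · obtain ⟨hS, hTr⟩ := Pool.Agent.H2.RP.pf_MP u hT κ (qg_of hκ)
    exact ⟨V κ, Pool.Agent.H24.WN.W κ, V_meas κ, Pool.Agent.H24.WN.W_meas κ, V_mem κ,
      struct_two (struct_of κ κ hS hTr (set_all hT hm hκ) (Eventually.of_forall fun x => rfl)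
        (EventuallyEq.refl _ _) (spec_all hG hQ hm hκ)) (sq_all hT hm hκ), hthree u hm κ hκ⟩
  · have hκ : QGW u (K ∘ₘ PP) := ⟨inferInstance, Pool.Agent.H56.FS.K_mean hK⟩
    obtain ⟨hS, hTr⟩ := Pool.Agent.H2.RP.pf_MP u hT (K ∘ₘ PP) (qg_of hκ)
    have hset := set_all hT hm hκ
    have hinv := aINV (K ∘ₘ PP) hS
    have hKS := Pool.Agent.H56.FS.K_inv hK
    obtain ⟨h1, h2⟩ := Pool.Agent.H56.FS.K_set PP K hS hKS hTr hset hinv
    have h3 := Pool.Agent.H56.FS.comp_same PP K hS hKS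
    have h4 := Pool.Agent.H56.FS.ae_K PP K (spec_all hG hQ hm hκ)
    have h5 := Pool.Agent.H56.FS.ae_K PP K hTr
    have h6 := h2 0 (fun a : I1 => (a : ℝ)) measurable_subtype_coe fun a => abs_le.2 a.2
    have h7 : ∀ᵐ ω ∂PP, ∀ n : ℤ,
        (K ω)[fun x : X => (x n : ℝ) ^ 2 | remote] =ᵐ[K ω] fun x => (x n : ℝ) ^ 2 := by
      rw [ae_all_iff]
      intro n
      have g1 := h2 n (fun a : I1 => (a : ℝ) ^ 2) (measurable_subtype_coe.pow_const 2) (fun a => by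
        rw [abs_pow]
        exact pow_le_one₀ (abs_nonneg _) (abs_le.2 a.2))
      have g2 := Pool.Agent.H56.FS.ae_K PP K (sq_all hT hm hκ n)
      filter_upwards [g1, g2] with ω e1 e2
      exact e1.symm.trans e2
    refine ⟨V (K ∘ₘ PP), Pool.Agent.H24.WN.W (K ∘ₘ PP), V_meas _,
      Pool.Agent.H24.WN.W_meas _, V_mem _, ?_, fun hχ => ?_⟩
    · filter_upwards [hKS, h5, h1, h3, h6, h4, h7] with ω g1 g2 g3 g4 g5 g6 g7
      exact struct_two (struct_of (K ∘ₘ PP) (K ω) g1 g2 g3 g4 g5.symm g6) g7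
    · have h8 := hthree u hm (K ∘ₘ PP) hκ hχ
      rwa [Pool.Agent.H56.FS.int_comp PP K] at h8
      exact Integrable.of_bound (Pool.Agent.H24.WN.W_meas _).aestronglyMeasurable 1
        (Eventually.of_forall fun x => by
          rw [Real.norm_eq_abs, abs_of_nonneg (Pool.Agent.H24.WN.W_mem _ x).1]
          exact (Pool.Agent.H24.WN.W_mem _ x).2)

end Pool.Agent.H28.SQ
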