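import Mathlib

/-!
# A multiplicative function with values 0, 1 and mean value different from 0 is nearly periodic
-/

set_option autoImplicit false

open Finset Filter Topology

namespace Pool.Agent.H28.SQ

/-- all prime factors of `b` are good -/
theorem rough_one (g : ℕ → ℝ) (h1 : g 1 = 1)
    (hm : ∀ m n : ℕ, m.Coprime n → g (m * n) = g m * g n) (b : ℕ) :
    b ≠ 0 → (∀ p : ℕ, p.Prime → p ∣ b → ¬ p ^ 2 ∣ b ∧ g p = 1) → g b = 1 := by
  induction b using induction_on_primes with
  | zero => intro h; exact absurd rfl h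
  | one => intro _ _; exact h1
  | prime_mul p a hp ih =>
    intro h0 h
    have ha : a ≠ 0 := fun hc => h0 (by rw [hc, mul_zero])
    have hpa := h p hp (dvd_mul_right p a)
    have hnd : ¬ p ∣ a := fun hc => hpa.1 (by
      rw [pow_two]
      exact mul_dvd_mul_left p hc)
    have hco : p.Coprime a := (Nat.Prime.coprime_iff_not_dvd hp).2 hnd
    rw [hm p a hco, hpa.2, one_mul]
    refine ih ha fun r hr hra => ⟨fun hc => ?_, (h r hr (hra.mul_left p)).2⟩
    exact (h r hr (hra.mul_left p)).1 (hc.mul_left p)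

/-- the exceptional integers -/
def Bad (g : ℕ → ℝ) (P K n : ℕ) : Prop :=
  (∃ p, p ≤ P ∧ p.Prime ∧ p ^ K ∣ n) ∨
    ∃ p, P < p ∧ p.Prime ∧ (p ^ 2 ∣ n ∨ (p ∣ n ∧ g p = 0))

theorem good_gcd (g : ℕ → ℝ) (hg : ∀ n, g n = 0 ∨ g n = 1) (h1 : g 1 = 1)
    (hm : ∀ m n : ℕ, m.Coprime n → g (m * n) = g m * g n) (P K n : ℕ) (hn : n ≠ 0)
    (hb : ¬ Bad g P K n) : g n = g (n.gcd (P.factorial ^ K)) := by
  unfold Bad at hb
  push Not at hb
  obtain ⟨hb1, hb2⟩ := hb
  set q := P.factorial ^ K with hq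
  set a := n.gcd q with ha
  obtain ⟨b, hab⟩ : a ∣ n := Nat.gcd_dvd_left n q
  have hb0 : b ≠ 0 := fun hc => hn (by rw [hab, hc, mul_zero])
  -- the small primes do not divide `b`
  have hsm : ∀ p : ℕ, p.Prime → p ∣ b → P < p := by
    intro p hp hpb
    by_contra hc
    push Not at hc
    have hpK := hb1 p hc hp
    set j := n.factorization p with hj
    have hj1 : p ^ j ∣ n := Nat.ordProj_dvd n p
    have hjK : j < K := by
      by_contra hk
      push Not at hk
      exact hpK ((pow_dvd_pow p hk).trans hj1)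
    have hpP : p ∣ P.factorial := (Nat.Prime.dvd_factorial hp).2 hc
    have hj2 : p ^ j ∣ q := (pow_dvd_pow p hjK.le).trans (pow_dvd_pow_of_dvd hpP K)
    have hj3 : p ^ j ∣ a := Nat.dvd_gcd hj1 hj2
    have hj4 : p ^ (j + 1) ∣ n := by
      rw [pow_succ, hab]
      exact mul_dvd_mul hj3 hpb
    exact Nat.pow_succ_factorization_not_dvd hn hp hj4
  have hco : a.Coprime b := by
    refine Nat.Coprime.symm (Nat.coprime_of_dvd fun p hp hpb hpa => ?_)
    have h2 := hsm p hp hpb
    have h3 : p ∣ q := hpa.trans (Nat.gcd_dvd_right n q)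
    have h4 : p ∣ P.factorial := hp.dvd_of_dvd_pow h3
    exact absurd ((Nat.Prime.dvd_factorial hp).1 h4) (not_le.2 h2)
  have hgb : g b = 1 := by
    refine rough_one g h1 hm b hb0 fun p hp hpb => ?_
    have h2 := hb2 p (hsm p hp hpb) hp
    refine ⟨fun hc => h2.1 (hc.trans (hab ▸ dvd_mul_left b a)), ?_⟩
    rcases hg p with h | h
    · exact absurd h (h2.2 (hpb.trans (hab ▸ dvd_mul_left b a)))
    · exact h
  conv_lhs => rw [hab, hm a b hco, hgb, mul_one]

theorem card_mult (d x : ℕ) : (((Icc 1 x).filter (fun n => d ∣ n)).card : ℝ) ≤ x / d := by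
  have h := Nat.Ioc_filter_dvd_card_eq_div x d
  have h2 : (Icc 1 x).filter (fun n => d ∣ n) = (Ioc 0 x).filter (fun n => d ∣ n) := by
    congr 1
  rw [h2, h]
  exact Nat.cast_div_le

open Classical in
/-- there are few exceptional integers -/
theorem card_bad (g : ℕ → ℝ) (P K x : ℕ) {δ : ℝ}
    (hT : ∑ p ∈ Ioc P x, (1 / (p : ℝ) ^ 2 + if p.Prime ∧ g p = 0 then 1 / (p : ℝ) else 0) ≤ δ)
    (hK : (P : ℝ) / 2 ^ K ≤ δ) :
    (((Icc 1 x).filter (fun n => Bad g P K n)).card : ℝ) ≤ 2 * δ * x := by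
  have hx : (0 : ℝ) ≤ x := Nat.cast_nonneg x
  have h1 : (Icc 1 x).filter (fun n => Bad g P K n) ⊆
      ((Icc 1 P).filter Nat.Prime).biUnion (fun p => (Icc 1 x).filter (fun n => p ^ K ∣ n)) ∪
      ((Ioc P x).biUnion (fun p => (Icc 1 x).filter (fun n => p ^ 2 ∣ n)) ∪
      ((Ioc P x).filter (fun p => p.Prime ∧ g p = 0)).biUnion
        (fun p => (Icc 1 x).filter (fun n => p ∣ n))) := by
    intro n hn
    obtain ⟨hn1, hn2⟩ := mem_filter.1 hn
    have hn3 := mem_Icc.1 hn1
    rcases hn2 with ⟨p, hp1, hp2, hp3⟩ | ⟨p, hp1, hp2, hp3 | ⟨hp3, hp4⟩⟩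
    · refine mem_union_left _ (mem_biUnion.2 ⟨p, mem_filter.2 ⟨mem_Icc.2 ⟨hp2.one_le, hp1⟩, hp2⟩,
        mem_filter.2 ⟨hn1, hp3⟩⟩)
    · have h2 : p ≤ n := (Nat.le_of_dvd (by omega) ((dvd_pow_self p two_ne_zero).trans hp3))
      exact mem_union_right _ (mem_union_left _ (mem_biUnion.2 ⟨p, mem_Ioc.2 ⟨hp1, by omega⟩,
        mem_filter.2 ⟨hn1, hp3⟩⟩))
    · have h2 : p ≤ n := (Nat.le_of_dvd (by omega) hp3)
      exact mem_union_right _ (mem_union_right _ (mem_biUnion.2 ⟨p, mem_filter.2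
        ⟨mem_Ioc.2 ⟨hp1, by omega⟩, hp2, hp4⟩, mem_filter.2 ⟨hn1, hp3⟩⟩))
  have h2 : (((Icc 1 x).filter (fun n => Bad g P K n)).card : ℝ) ≤
      ∑ p ∈ (Icc 1 P).filter Nat.Prime, (((Icc 1 x).filter (fun n => p ^ K ∣ n)).card : ℝ) +
      (∑ p ∈ Ioc P x, (((Icc 1 x).filter (fun n => p ^ 2 ∣ n)).card : ℝ) +
      ∑ p ∈ (Ioc P x).filter (fun p => p.Prime ∧ g p = 0),
        (((Icc 1 x).filter (fun n => p ∣ n)).card : ℝ)) := by
    have h3 := (card_le_card h1).trans ((card_union_le _ _).trans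
      (add_le_add card_biUnion_le ((card_union_le _ _).trans
        (add_le_add card_biUnion_le card_biUnion_le))))
    exact_mod_cast h3
  refine h2.trans ?_
  have h4 : ∑ p ∈ (Icc 1 P).filter Nat.Prime, (((Icc 1 x).filter (fun n => p ^ K ∣ n)).card : ℝ)
      ≤ δ * x := by
    calc _ ≤ ∑ p ∈ (Icc 1 P).filter Nat.Prime, (x : ℝ) / 2 ^ K := by
          refine sum_le_sum fun p hp => (card_mult _ _).trans ?_
          have hp2 := (mem_filter.1 hp).2.two_le
          push_cast
          gcongr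
          exact_mod_cast hp2
      _ ≤ ∑ p ∈ Icc 1 P, (x : ℝ) / 2 ^ K :=
          sum_le_sum_of_subset_of_nonneg (filter_subset _ _) fun _ _ _ => by positivity
      _ = (P : ℝ) / 2 ^ K * x := by
          rw [sum_const, Nat.card_Icc, nsmul_eq_mul]
          push_cast
          ring_nf
      _ ≤ δ * x := mul_le_mul_of_nonneg_right hK hx
  have h5 : ∑ p ∈ Ioc P x, (((Icc 1 x).filter (fun n => p ^ 2 ∣ n)).card : ℝ) +
      ∑ p ∈ (Ioc P x).filter (fun p => p.Prime ∧ g p = 0),
        (((Icc 1 x).filter (fun n => p ∣ n)).card : ℝ) ≤ δ * x := by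
    rw [sum_filter, ← sum_add_distrib]
    calc _ ≤ ∑ p ∈ Ioc P x, (1 / (p : ℝ) ^ 2 +
          if p.Prime ∧ g p = 0 then 1 / (p : ℝ) else 0) * x := by
          refine sum_le_sum fun p _ => ?_
          rw [add_mul]
          refine add_le_add ?_ ?_
          · refine (card_mult _ _).trans (le_of_eq ?_)
            push_cast
            ring
          · split_ifs with h
            · refine (card_mult _ _).trans (le_of_eq ?_)
              ring
            · simp
      _ ≤ δ * x := by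
          rw [← sum_mul]
          exact mul_le_mul_of_nonneg_right hT hx
  linarith

/-- **Near periods**: a multiplicative function with values 0 and 1 which is 1 at most primes is
nearly periodic. -/
theorem near_periodic (g : ℕ → ℝ) (hg : ∀ n, g n = 0 ∨ g n = 1)
    (hm : ∀ m n : ℕ, m.Coprime n → g (m * n) = g m * g n)
    (hs : Summable (fun p : {p : ℕ // p.Prime} => (1 - g p) / (p : ℝ))) {ε : ℝ} (hε : 0 < ε) :
    ∃ q : ℕ, 1 ≤ q ∧ ∃ x₀ : ℝ, 0 ≤ x₀ ∧ ∀ x : ℕ, 1 ≤ x →
      ∑ n ∈ Icc 1 x, |g n - g (n + q)| ≤ ε * x + x₀ := by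
  classical
  rcases hg 1 with h0 | h1
  · have hz : ∀ n, g n = 0 := fun n => by
      have h := hm 1 n (Nat.coprime_one_left n)
      rw [one_mul, h0, zero_mul] at h
      exact h
    refine ⟨1, le_refl _, 0, le_refl _, fun x hx => ?_⟩
    simp only [hz, sub_self, abs_zero, sum_const_zero, add_zero]
    positivity
  · set F : ℕ → ℝ := fun p => 1 / (p : ℝ) ^ 2 + if p.Prime ∧ g p = 0 then 1 / (p : ℝ) else 0
      with hF
    have hF0 : ∀ n, 0 ≤ F n := fun n => by
      simp only [hF]
      split_ifs <;> positivity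
    have hFs : Summable F := by
      refine (Real.summable_one_div_nat_pow.2 one_lt_two).add ?_
      have h2 : Summable (Set.indicator {p : ℕ | p.Prime} fun n : ℕ => (1 - g n) / (n : ℝ)) :=
        (summable_subtype_iff_indicator).1 hs
      refine Summable.of_nonneg_of_le (fun n => ?_) (fun n => ?_) h2
      · split_ifs <;> positivity
      · by_cases hp : n.Prime
        · rw [Set.indicator_of_mem (by exact hp)]
          rcases hg n with h | h
          · rw [if_pos ⟨hp, h⟩, h, sub_zero]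
          · rw [if_neg (fun hc => by rw [h] at hc; exact one_ne_zero hc.2), h]
            simp
        · rw [Set.indicator_of_notMem (by exact hp), if_neg (fun hc => hp hc.1)]
    have htail := tendsto_sum_nat_add F
    obtain ⟨P, hP⟩ := (htail.eventually_lt_const (by positivity : (0 : ℝ) < ε / 4)).exists_forall_of_atTop
    have hT : ∀ x : ℕ, ∑ p ∈ Ioc P x, F p ≤ ε / 4 := by
      intro x
      refine le_trans ?_ (hP P le_rfl).le
      have h3 : Summable fun k => F (k + P) := (summable_nat_add_iff P).2 hFs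
      calc ∑ p ∈ Ioc P x, F p ≤ ∑ p ∈ (range (x + 1)).image (fun k => k + P), F p := by
            refine sum_le_sum_of_subset_of_nonneg (fun p hp => ?_) fun _ _ _ => hF0 _
            obtain ⟨h4, h5⟩ := mem_Ioc.1 hp
            exact mem_image.2 ⟨p - P, mem_range.2 (by omega), by omega⟩
        _ = ∑ k ∈ range (x + 1), F (k + P) :=
            sum_image fun a _ b _ h => by simpa using h
        _ ≤ ∑' k, F (k + P) := h3.sum_le_tsum _ fun _ _ => hF0 _
    obtain ⟨K, hK⟩ : ∃ K : ℕ, (P : ℝ) / 2 ^ K ≤ ε / 4 := by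
      have h3 : Tendsto (fun K : ℕ => (P : ℝ) / 2 ^ K) atTop (𝓝 0) :=
        tendsto_const_nhds.div_atTop (tendsto_pow_atTop_atTop_of_one_lt one_lt_two)
      exact (h3.eventually_le_const (by positivity : (0 : ℝ) < ε / 4)).exists
    set q := P.factorial ^ K with hq
    have hq1 : 1 ≤ q := Nat.one_le_iff_ne_zero.2 (pow_ne_zero K P.factorial_ne_zero)
    refine ⟨q, hq1, ε * q, by positivity, fun x hx => ?_⟩
    have hpt : ∀ n ∈ Icc 1 x, |g n - g (n + q)| ≤
        (if Bad g P K n then (1 : ℝ) else 0) + if Bad g P K (n + q) then (1 : ℝ) else 0 := by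
      intro n hn
      have hn0 : n ≠ 0 := by
        have := (mem_Icc.1 hn).1
        omega
      have hle : |g n - g (n + q)| ≤ 1 := by
        rcases hg n with h | h <;> rcases hg (n + q) with h' | h' <;> rw [h, h'] <;> norm_num
      by_cases hb : Bad g P K n
      · rw [if_pos hb]
        have : (0 : ℝ) ≤ if Bad g P K (n + q) then (1 : ℝ) else 0 := by split_ifs <;> norm_num
        linarith
      by_cases hb' : Bad g P K (n + q)
      · rw [if_pos hb', if_neg hb]
        linarith
      · rw [good_gcd g hg h1 hm P K n hn0 hb, good_gcd g hg h1 hm P K (n + q) (by omega) hb',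
          ← hq, Nat.gcd_add_self_left, if_neg hb, if_neg hb']
        simp
    have hA : ∀ y : ℕ, ∑ n ∈ Icc 1 y, (if Bad g P K n then (1 : ℝ) else 0) ≤ 2 * (ε / 4) * y := by
      intro y
      rw [← sum_filter, sum_const, nsmul_eq_mul, mul_one]
      exact card_bad g P K y (hT y) hK
    have hB : ∑ n ∈ Icc 1 x, (if Bad g P K (n + q) then (1 : ℝ) else 0) ≤
        2 * (ε / 4) * (x + q : ℕ) := by
      refine le_trans ?_ (hA (x + q))
      have h6 : ∑ n ∈ (Icc 1 x).image (fun n => n + q), (if Bad g P K n then (1 : ℝ) else 0) =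
          ∑ n ∈ Icc 1 x, (if Bad g P K (n + q) then (1 : ℝ) else 0) :=
        sum_image fun a _ b _ h => by simpa using h
      calc ∑ n ∈ Icc 1 x, (if Bad g P K (n + q) then (1 : ℝ) else 0)
          = ∑ n ∈ (Icc 1 x).image (fun n => n + q), (if Bad g P K n then (1 : ℝ) else 0) :=
            h6.symm
        _ ≤ _ := by
            refine sum_le_sum_of_subset_of_nonneg (fun n hn => ?_) fun _ _ _ => by
              split_ifs <;> norm_num
            obtain ⟨m, hm1, rfl⟩ := mem_image.1 hn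
            have := mem_Icc.1 hm1
            exact mem_Icc.2 ⟨by omega, by omega⟩
    calc ∑ n ∈ Icc 1 x, |g n - g (n + q)|
        ≤ ∑ n ∈ Icc 1 x, ((if Bad g P K n then (1 : ℝ) else 0) +
          if Bad g P K (n + q) then (1 : ℝ) else 0) := sum_le_sum hpt
      _ ≤ 2 * (ε / 4) * x + 2 * (ε / 4) * (x + q : ℕ) := by
          rw [sum_add_distrib]
          exact add_le_add (hA x) hB
      _ ≤ ε * x + ε * q := by
          push_cast
          have : (0 : ℝ) ≤ ε * q := by positivity
          linarith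

end Pool.Agent.H28.SQ
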