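import Pool.Agent.H28.SQ.Rap
import Pool.Agent.H28.FS.Fin

/-!
# The squares of the coordinates belong to the remote past (MP_c59857_nt)
-/

set_option autoImplicit false

open MeasureTheory ProbabilityTheory Filter Topology Finset

namespace Pool.Agent.H28.SQ

open Pool.Agent.H89.MT (I1 X pt z1 IsMult)
open Pool.Agent.H36.RP (S past remote remote_le past_le comp ae_comp meas_y abs_y Trit)
open Pool.Agent.H95.RP (bias)
open Pool.Agent.H24.WT (QGW qgw_mp)
open Pool.Agent.H28.MG (P Tri qg_of set_all zero_all ae_const)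

/-- a function which is approximated by functions measurable with respect to a smaller sigma
algebra -/
theorem condExp_approx (κ : Measure X) [IsProbabilityMeasure κ] {g : X → ℝ} (hg : Integrable g κ)
    (m : MeasurableSpace X) (hm : m ≤ (MeasurableSpace.pi : MeasurableSpace X))
    (h : ∀ ε : ℝ, 0 < ε → ∃ φ : X → ℝ, StronglyMeasurable[m] φ ∧ Integrable φ κ ∧
      ∫ x, |φ x - g x| ∂κ ≤ ε) : κ[g | m] =ᵐ[κ] g := by
  have hi : Integrable (fun x => κ[g | m] x - g x) κ := integrable_condExp.sub hg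
  have h0 : ∫ x, |κ[g | m] x - g x| ∂κ ≤ 0 := by
    refine le_of_forall_pos_le_add fun ε hε => ?_
    rw [zero_add]
    obtain ⟨φ, hφ, hφi, hφε⟩ := h (ε / 2) (half_pos hε)
    have h1 : κ[g - φ | m] =ᵐ[κ] κ[g | m] - κ[φ | m] := condExp_sub hg hφi m
    have h2 : κ[φ | m] = φ := condExp_of_stronglyMeasurable hm hφ hφi
    rw [h2] at h1
    have h3 : ∫ x, |κ[g - φ | m] x| ∂κ ≤ ∫ x, |(g - φ) x| ∂κ := integral_abs_condExp_le _
    have h4 : ∫ x, |(g - φ) x| ∂κ = ∫ x, |φ x - g x| ∂κ :=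
      integral_congr_ae (Eventually.of_forall fun x => by
        simp only [Pi.sub_apply]
        exact abs_sub_comm _ _)
    have h5 : ∫ x, |κ[g | m] x - g x| ∂κ ≤ ∫ x, (|κ[g - φ | m] x| + |φ x - g x|) ∂κ := by
      refine integral_mono_ae hi.abs (integrable_condExp.abs.add (hφi.sub hg).abs) ?_
      filter_upwards [h1] with x hx
      rw [hx]
      simp only [Pi.sub_apply]
      have := abs_add_le (κ[g | m] x - φ x) (φ x - g x)
      rwa [sub_add_sub_cancel] at this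
    have h7 : ∫ x, (|κ[g - φ | m] x| + |φ x - g x|) ∂κ =
        ∫ x, |κ[g - φ | m] x| ∂κ + ∫ x, |φ x - g x| ∂κ :=
      integral_add integrable_condExp.abs (hφi.sub hg).abs
    rw [h7] at h5
    linarith
  have h6 := (integral_eq_zero_iff_of_nonneg (fun x => abs_nonneg _) hi.abs).1
    (le_antisymm h0 (integral_nonneg fun x => abs_nonneg _))
  filter_upwards [h6] with x hx
  exact sub_eq_zero.1 (abs_eq_zero.1 hx)

/-- near periods of the squares -/
theorem sq_near {u : ℕ → I1} (hT : Tri u)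
    (hm : ∀ m n : ℕ, m.Coprime n → (u (m * n) : ℝ) = u m * u n)
    (hs : Summable (fun p : {p : ℕ // p.Prime} => (1 - (u p : ℝ) ^ 2) / (p : ℝ)))
    {κ : Measure X} [IsProbabilityMeasure κ] (hκ : QGW u κ) {ε : ℝ} (hε : 0 < ε) :
    ∃ q : ℕ, 1 ≤ q ∧ ∫ x : X, |(x 0 : ℝ) ^ 2 - (x (q : ℤ) : ℝ) ^ 2| ∂κ ≤ ε := by
  have hg : ∀ n, (u n : ℝ) ^ 2 = 0 ∨ (u n : ℝ) ^ 2 = 1 := fun n => by
    rcases hT n with h | h | h <;> rw [h] <;> norm_num
  obtain ⟨q, hq1, x₀, hx0, hM⟩ := near_periodic (fun n => (u n : ℝ) ^ 2) hg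
    (fun m n h => by rw [hm m n h, mul_pow]) hs hε
  refine ⟨q, hq1, ?_⟩
  obtain ⟨-, Y, Z, hYZ, hL, hF⟩ := hκ
  set a : ℕ → ℝ := fun n => |(u n : ℝ) ^ 2 - (u (n + q) : ℝ) ^ 2| with ha
  have a0 : ∀ n, 0 ≤ a n := fun n => abs_nonneg _
  have a1 : ∀ n, a n ≤ 1 := fun n => by
    simp only [ha]
    rcases hg n with h | h <;> rcases hg (n + q) with h' | h' <;> rw [h, h'] <;> norm_num
  have hc : ∀ k : ℤ, Continuous fun x : X => (x k : ℝ) ^ 2 := fun k =>
    (continuous_subtype_val.comp (continuous_apply k)).pow 2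
  have hlim := hF ⟨fun x => |(x 0 : ℝ) ^ 2 - (x (q : ℤ) : ℝ) ^ 2|, ((hc 0).sub (hc q)).abs⟩
  have h2 : Tendsto (fun k => (1 + x₀) / Real.log ((Z k : ℝ) / Y k) + ε) atTop (𝓝 (0 + ε)) :=
    (hL.const_div_atTop _).add_const ε
  rw [zero_add] at h2
  refine le_of_tendsto_of_tendsto hlim h2 ?_
  filter_upwards [hL.eventually_gt_atTop 0] with k hk
  have h3 := Pool.Agent.H70.WN.window a ε x₀ hx0 a0 a1 hε.le hM (Y k) (hYZ k).1 (Z k) (hYZ k).2.1
  have hpt : ∀ n : ℕ, 1 ≤ n → ∀ j : ℕ, pt u n (j : ℤ) = u (n + j) := by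
    intro n hn j
    have hn1 : 0 < (n : ℤ) + (j : ℤ) := by omega
    unfold pt
    rw [if_pos hn1]
    congr 1
  have e : ∑ n ∈ Icc (Y k) (Z k), (⟨fun x => |(x 0 : ℝ) ^ 2 - (x (q : ℤ) : ℝ) ^ 2|,
      ((hc 0).sub (hc q)).abs⟩ : C(X, ℝ)) (pt u n) / (n : ℝ) =
      ∑ n ∈ Icc (Y k) (Z k), a n / n := by
    refine sum_congr rfl fun n hn => ?_
    have h4 : 1 ≤ n := (hYZ k).1.trans (mem_Icc.1 hn).1
    show |(pt u n 0 : ℝ) ^ 2 - (pt u n (q : ℤ) : ℝ) ^ 2| / (n : ℝ) = a n / n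
    have h5 := hpt n h4 0
    rw [add_zero, Nat.cast_zero] at h5
    rw [h5, hpt n h4 q]
  rw [e, div_le_iff₀ hk, add_mul, div_mul_cancel₀ _ hk.ne']
  exact h3

/-- The squares of the coordinates are measurable with respect to the remote past, mod `κ`. -/
theorem sq_all {u : ℕ → I1} (hT : Tri u)
    (hm : ∀ m n : ℕ, m.Coprime n → (u (m * n) : ℝ) = u m * u n)
    {κ : Measure X} [IsProbabilityMeasure κ] (hκ : QGW u κ) (n : ℤ) :
    κ[fun x : X => (x n : ℝ) ^ 2 | remote] =ᵐ[κ] fun x => (x n : ℝ) ^ 2 := by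
  obtain ⟨hS, hTr⟩ := Pool.Agent.H2.RP.pf_MP u hT κ (qg_of hκ)
  have hset := set_all hT hm hκ n (fun a : I1 => (a : ℝ) ^ 2)
    (measurable_subtype_coe.pow_const 2) (fun a => by
      rw [abs_pow]
      exact pow_le_one₀ (abs_nonneg _) (abs_le.2 a.2))
  have hmk : ∀ k : ℤ, Measurable fun y : X => (y k : ℝ) ^ 2 := fun k =>
    (measurable_subtype_coe.comp (measurable_pi_apply k)).pow_const 2
  have hik : ∀ k : ℤ, Integrable (fun y : X => (y k : ℝ) ^ 2) κ := fun k =>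
    Integrable.of_bound (C := 1) (hmk k).aestronglyMeasurable (Eventually.of_forall fun y => by
      rw [Real.norm_eq_abs, abs_pow]
      exact pow_le_one₀ (abs_nonneg _) (abs_le.2 (y k).2))
  by_cases hs : Summable (fun p : {p : ℕ // p.Prime} => (1 - (u p : ℝ) ^ 2) / (p : ℝ))
  · refine hset.symm.trans (condExp_approx κ (hik n) (past (n - 1)) (past_le _)
      fun ε hε => ?_)
    obtain ⟨q, hq1, hq⟩ := sq_near hT hm hs hκ hε
    refine ⟨fun x => (x (n - q) : ℝ) ^ 2, ?_, hik _, ?_⟩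
    · have h1 : Measurable[past (n - 1)] fun x : X => x (n - q) := by
        rw [measurable_iff_comap_le]
        exact le_iSup_of_le (n - (q : ℤ)) (le_iSup_of_le (by omega) le_rfl)
      exact ((measurable_subtype_coe.comp h1).pow_const 2).stronglyMeasurable
    · refine le_trans (le_of_eq ?_) hq
      -- invariance under the shift
      have hmeas : ∀ k l : ℤ, AEStronglyMeasurable
          (fun y : X => |(y k : ℝ) ^ 2 - (y l : ℝ) ^ 2|) κ := fun k l =>
        (((hmk k).sub (hmk l)).abs).aestronglyMeasurable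
      have hit : ∀ (h : ℕ) (x : X) (t : ℤ), (S^[h] x) t = x (t + h) := fun h x t =>
        Pool.Agent.H24.EG.iter_S h x t
      have hsh : ∀ (h : ℕ) (k l : ℤ), ∫ y : X, |(y (k + h) : ℝ) ^ 2 - (y (l + h) : ℝ) ^ 2| ∂κ =
          ∫ y : X, |(y k : ℝ) ^ 2 - (y l : ℝ) ^ 2| ∂κ := by
        intro h k l
        have hmp := hS.iterate h
        calc ∫ y : X, |(y (k + h) : ℝ) ^ 2 - (y (l + h) : ℝ) ^ 2| ∂κ
            = ∫ y : X, |((S^[h] y) k : ℝ) ^ 2 - ((S^[h] y) l : ℝ) ^ 2| ∂κ := by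
              refine integral_congr_ae (Eventually.of_forall fun y => ?_)
              simp only [hit]
          _ = ∫ y : X, |(y k : ℝ) ^ 2 - (y l : ℝ) ^ 2| ∂(κ.map (S^[h])) := by
              rw [integral_map hmp.measurable.aemeasurable (by rw [hmp.map_eq]; exact hmeas k l)]
          _ = ∫ y : X, |(y k : ℝ) ^ 2 - (y l : ℝ) ^ 2| ∂κ := by rw [hmp.map_eq]
      rcases le_total (n - (q : ℤ)) 0 with hk | hk
      · have h1 := hsh (-(n - (q : ℤ))).toNat (n - q) n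
        have h2 : n - (q : ℤ) + ((-(n - (q : ℤ))).toNat : ℤ) = 0 := by omega
        have h3 : n + ((-(n - (q : ℤ))).toNat : ℤ) = q := by omega
        rw [h2, h3] at h1
        exact h1.symm
      · have h1 := hsh (n - (q : ℤ)).toNat 0 q
        have h2 : (0 : ℤ) + ((n - (q : ℤ)).toNat : ℤ) = n - q := by omega
        have h3 : (q : ℤ) + ((n - (q : ℤ)).toNat : ℤ) = n := by omega
        rw [h2, h3] at h1
        exact h1
  · have h0 := zero_all hS (Pool.Agent.H70.WN.pf_TRW u κ hm hκ hs)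
    have h1 : (fun x : X => (x n : ℝ) ^ 2) =ᵐ[κ] fun _ => ((z1 : I1) : ℝ) ^ 2 :=
      ae_const h0 fun x : X => (x n : ℝ) ^ 2
    refine (condExp_congr_ae h1).trans ?_
    rw [condExp_const remote_le]
    exact h1.symm

end Pool.Agent.H28.SQ
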